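import Pool.Agent.H56.BD.StmtsT

set_option autoImplicit false

namespace Pool.BD

open Relation

namespace AC1

variable {V : Type} {G : SimpleGraph V} {rk : V → ℕ} {q0 : V} {L : Ct V} {ρ : V → V} {t : V → ℤ}

theorem dw_rk (hN : NS G rk q0 L ρ t) {x z : V} (h : Dw G rk q0 ρ x z) : rk x < rk z := by
  obtain ⟨h1, h2, h3⟩ := h
  have := (hN.rU z h1 h2).2.1
  rwa [h3] at this

theorem rt_rk (hN : NS G rk q0 L ρ t) {x z : V} (h : ReflTransGen (Dw G rk q0 ρ) x z) :
    rk x ≤ rk z := by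
  induction h with
  | refl => exact le_rfl
  | tail _ h2 ih => exact ih.trans (dw_rk hN h2).le

theorem t_rk (hN : NS G rk q0 L ρ t) {x z : V} (h : TransGen (Dw G rk q0 ρ) x z) :
    rk x < rk z := by
  obtain ⟨w, h1, h2⟩ := TransGen.tail'_iff.1 h
  exact lt_of_le_of_lt (rt_rk hN h1) (dw_rk hN h2)

theorem chain {x y v : V} (hx : ReflTransGen (Dw G rk q0 ρ) x v)
    (hy : ReflTransGen (Dw G rk q0 ρ) y v) :
    ReflTransGen (Dw G rk q0 ρ) x y ∨ ReflTransGen (Dw G rk q0 ρ) y x := by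
  induction hx with
  | refl => exact Or.inr hy
  | @tail b c h1 h2 ih =>
    rcases ReflTransGen.cases_tail hy with h3 | ⟨d, h3, h4⟩
    · subst h3; exact Or.inl (h1.tail h2)
    · have : d = b := by rw [← h4.2.2, ← h2.2.2]
      subst this
      exact ih h3

/-- everything reachable from the root is in the hub of the root -/
theorem root_all (hN : NS G rk q0 L ρ t) {b : V} (hb : Re G rk q0 b) :
    b ∈ SU G rk q0 L t q0 := by
  by_cases hq : b = q0
  · exact ⟨hb, Or.inl hq⟩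
  · refine ((hN.anc q0 b (Or.inl rfl)).2 ?_).1
    have key : ∀ n, ∀ b, rk b = n → Re G rk q0 b → b ≠ q0 → TransGen (Dw G rk q0 ρ) q0 b := by
      intro n
      induction n using Nat.strong_induction_on with
      | _ n ih =>
        intro b hn hb hq
        have h1 := hN.rU b hb hq
        by_cases h2 : ρ b = q0
        · exact TransGen.single ⟨hb, hq, h2⟩
        · exact TransGen.tail (ih (rk (ρ b)) (by omega) (ρ b) rfl h1.1 h2) ⟨hb, hq, rfl⟩
    exact key _ b rfl hb hq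

end AC1

theorem ac1 : AC1 := by
  intro V G rk q0 L ρ t R hNod a y hy0 hact
  have hN := hNod.ns
  obtain ⟨hNd, haS, hay, v0, hv0S, hv0y, hav0⟩ := hact
  -- the hub of the root
  set H0 : Set V := SU G rk q0 L t q0 with hH0
  have hH0all : ∀ b, Re G rk q0 b → b ∈ H0 := fun b hb => AC1.root_all hN hb
  have hH0re : ∀ b ∈ H0, Re G rk q0 b := fun b hb => hb.1
  have hnh := hNod.nh q0 (Or.inl rfl)
  have hL : IsCt G H0 q0 (QU G q0 L t q0) L := hnh.ok.isL
  have hr : ∀ v ∈ H0, v ≠ q0 → rk (L.par v) < rk v := hnh.ok.parL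
  obtain ⟨b1, hb1, hb1q, hb1y⟩ : ∃ b, Re G rk q0 b ∧ b ≠ q0 ∧ ρ b = y := hNd.resolve_left hy0
  obtain ⟨u, huS, huy, hupar, htu⟩ := hN.land b1 hb1 hb1q (by rw [hb1y]; exact hy0)
  rw [hb1y] at huS huy hupar htu
  have hyU : Re G rk q0 y := by
    have := (hN.rU b1 hb1 hb1q).1
    rwa [hb1y] at this
  have huU : Re G rk q0 u := huS.1
  have hyH : y ∈ H0 := hH0all y hyU
  have huH : u ∈ H0 := hH0all u huU
  obtain ⟨hρU, hρrk, hyS⟩ := hN.rU y hyU hy0
  have hyρ : y ≠ ρ y := fun h => by rw [← h] at hρrk; exact lt_irrefl _ hρrk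
  have hyS' : t (ρ y) < L.lo y ∧ L.hi y < L.hi (ρ y) := hyS.2.resolve_left hyρ
  -- the two darts of the chord
  have hDyu : Dn G H0 q0 (QU G q0 L t q0) L y u :=
    ⟨hyH, huy.1.symm, fun h => absurd h hy0, fun _ => fun h => hupar h.symm⟩
  have hDuy : Dn G H0 q0 (QU G q0 L t q0) L u y := by
    refine ⟨huH, huy.1, fun h => hL.QH y hyH (h ▸ huy.1), fun hu h => ?_⟩
    have := hr u huH hu
    rw [← h] at this
    exact absurd huy.2 (by omega)
  have hnCyu : ¬ Ch H0 q0 L y u := by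
    rintro ⟨h1, h2, h3⟩
    have := hr u h1 h2
    rw [h3] at this
    exact absurd huy.2 (by omega)
  have hnCuy : ¬ Ch H0 q0 L u y := fun h => hupar h.2.2
  have hleft : L.pos y u < L.pos u y := hnh.ok.left u huH y hyH huy hupar
  have hnAyu : ¬ Anc H0 q0 L y u := fun h => by
    have := Anc.rank hr h
    exact absurd huy.2 (by omega)
  have hdyu := hL.dn _ _ hDyu
  have hduy := hL.dn _ _ hDuy
  have hhiy : L.hi y < L.pos u y := by
    rcases hL.dart_side hr hDuy hnCuy hyH hnAyu with h | h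
    · omega
    · exact h
  -- the hub of the two paths
  let H' : Set V := {x | x ∈ H0 ∧ (Anc H0 q0 L x y ∨ Anc H0 q0 L x u)}
  have hH'sub : H' ⊆ H0 := fun x hx => hx.1
  have hH'anc : ∀ x z, z ∈ H' → x ∈ H0 → Anc H0 q0 L x z → x ∈ H' := by
    intro x z hz hx hxz
    exact ⟨hx, hz.2.imp (fun h => hxz.trans h) (fun h => hxz.trans h)⟩
  have hq0H0 : q0 ∈ H0 := hL.qH
  have hq0H' : q0 ∈ H' := ⟨hq0H0, Or.inl (hL.root_anc hr y hyH)⟩
  have hyH' : y ∈ H' := ⟨hyH, Or.inl ReflTransGen.refl⟩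
  have huH' : u ∈ H' := ⟨huH, Or.inr ReflTransGen.refl⟩
  have hH'par : ∀ v ∈ H', v ≠ q0 → L.par v ∈ H' := by
    intro v hv hvq
    refine hH'anc _ v hv (hL.par v hv.1 hvq).1 ?_
    exact ReflTransGen.single ⟨hv.1, hvq, rfl⟩
  have hH're : ∀ x ∈ H', Re G rk x y := by
    intro x hx
    rcases hx.2 with h | h
    · exact Anc.reach hL hr h
    · exact (Anc.reach hL hr h).tail huy
  have hXH' : ∀ x, Re G rk a x → x ∉ H' := fun x hax hx => hay (hax.trans (hH're x hx))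
  -- the connected set outside
  let X' : Set V := {x | x ∉ H' ∧ (Re G rk a x ∨ ∃ v, Re G rk a v ∧ v ∈ H0 ∧ x ∈ H0 ∧ Anc H0 q0 L x v)}
  have hXd : Disjoint X' H' := Set.disjoint_left.2 fun x hx hx' => hx.1 hx'
  have hCna : ∀ v, Re G rk a v → Cn G X' a v := by
    intro v hv
    refine ⟨⟨hXH' a ReflTransGen.refl, Or.inl ReflTransGen.refl⟩, ?_⟩
    induction hv with
    | refl => exact ReflTransGen.refl
    | @tail b c h1 h2 ih =>
      exact ih.tail ⟨h2.1, hXH' c (h1.tail h2), Or.inl (h1.tail h2)⟩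
  have hCnc : ∀ c v, Re G rk a v → v ∈ H0 → c ∈ H0 → c ∉ H' → Anc H0 q0 L c v → Cn G X' c v := by
    intro c v hav hv hc hcH' hcv
    have hcX : c ∈ X' := ⟨hcH', Or.inr ⟨v, hav, hv, hc, hcv⟩⟩
    have key : ∀ w, Anc H0 q0 L c w → Anc H0 q0 L w v → Cn G X' c w := by
      intro w h1
      induction h1 with
      | refl => intro _; exact ⟨hcX, ReflTransGen.refl⟩
      | @tail b w h2 h3 ih =>
        intro h4
        have h5 := ih (ReflTransGen.head h3 h4)
        refine ⟨h5.1, h5.2.tail ⟨?_, ?_, Or.inr ⟨v, hav, hv, h3.1, h4⟩⟩⟩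
        · have := (hL.par w h3.1 h3.2.1).2
          rwa [h3.2.2] at this
        · intro hw
          exact hcH' (hH'anc c w hw hc (h2.tail h3))
    exact key v hcv ReflTransGen.refl
  -- feet
  have hfoot : ∀ v, Re G rk a v → v ∈ H0 → ∃ c, c ∈ H0 ∧ c ≠ q0 ∧ c ∉ H' ∧ L.par c ∈ H' ∧
      Anc H0 q0 L c v := by
    intro v hav hv
    have h1 := hL.root_anc hr v hv
    have h2 := hXH' v hav
    have key : ∀ x, Anc H0 q0 L x v → x ∈ H' → ∃ c, c ∈ H0 ∧ c ≠ q0 ∧ c ∉ H' ∧ L.par c ∈ H' ∧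
        Anc H0 q0 L c v := by
      intro x hx
      induction hx using ReflTransGen.head_induction_on with
      | refl => intro h; exact absurd h h2
      | @head x x' h3 h4 ih =>
        intro hxH
        by_cases h5 : x' ∈ H'
        · exact ih h5
        · exact ⟨x', h3.1, h3.2.1, h5, by rw [h3.2.2]; exact hxH, h4⟩
    exact key q0 h1 hq0H'
  have hFt : ∀ c, c ∈ H0 → c ≠ q0 → c ∉ H' → L.par c ∈ H' →
      Ft G H0 H' q0 (QU G q0 L t q0) L (L.par c, c) := by
    intro c h1 h2 h3 h4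
    exact ⟨h4, hL.ch_dn hr h1 h2, fun h => h3 h.2⟩
  have hFyu : Ft G H0 H' q0 (QU G q0 L t q0) L (y, u) := ⟨hyH', hDyu, fun h => hnCyu h.1⟩
  have hFuy : Ft G H0 H' q0 (QU G q0 L t q0) L (u, y) := ⟨huH', hDuy, fun h => hnCuy h.1⟩
  have hLk1 : Lk G H' ∅ (y, u) (u, y) := Or.inl ⟨rfl, huH', rfl⟩
  -- sides of a foot
  have hside : ∀ c, c ∈ H0 → c ≠ q0 → c ∉ H' →
      (L.pos y u < L.lo c ∨ L.hi c < L.pos y u) ∧ (L.pos u y < L.lo c ∨ L.hi c < L.pos u y) ∧
      L.lo c ≤ L.pos (L.par c) c ∧ L.pos (L.par c) c ≤ L.hi c := by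
    intro c h1 h2 h3
    have h4 := hL.ch c h1 h2
    exact ⟨hL.dart_side hr hDyu hnCyu h1 (fun h => h3 ⟨h1, Or.inl h⟩),
      hL.dart_side hr hDuy hnCuy h1 (fun h => h3 ⟨h1, Or.inr h⟩), h4.2.1, h4.2.2.1⟩
  -- the foot of `v0`
  have hv0H : v0 ∈ H0 := hH0all v0 hv0S.1
  have hv0S' : t y < L.lo v0 ∧ L.hi v0 < L.hi y := hv0S.2.resolve_left hv0y
  have hAyv0 : Anc H0 q0 L y v0 := (hL.anc_iff hr hyH hv0H).2 ⟨by omega, by omega⟩
  obtain ⟨c0, hc0, hc0q, hc0H', hc0p, hc0v⟩ := hfoot v0 hav0 hv0H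
  have hAyc0 : Anc H0 q0 L y c0 := by
    have h1 := hL.anc_le hc0v
    have h2 := hL.anc_le hAyv0
    have h3 := hL.lh v0 hv0H
    rcases hL.tri hr y hyH c0 hc0 with h | h | h | h
    · exact h
    · exact absurd ⟨hc0, Or.inl h⟩ hc0H'
    · omega
    · omega
  have hyc0 : y ≠ c0 := fun h => hc0H' (h ▸ hyH')
  have hblk := hL.anc_block hAyc0 hyc0
  have hs0 := hside c0 hc0 hc0q hc0H'
  have hc0v' := hL.anc_le hc0v
  have hlhv0 := hL.lh v0 hv0H
  have hin0 : L.pos y u < L.lo c0 ∧ L.hi c0 < L.pos u y := by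
    rcases hs0.1 with h | h
    · exact ⟨h, by omega⟩
    · omega
  -- every foot is inside
  have hin : ∀ v, Re G rk a v → v ∈ H0 → L.pos y u < L.lo v ∧ L.hi v < L.pos u y := by
    intro v hav hv
    obtain ⟨c, hc, hcq, hcH', hcp, hcv⟩ := hfoot v hav hv
    have hs := hside c hc hcq hcH'
    have hcv' := hL.anc_le hcv
    have hlk : Lk G H' X' (L.par c0, c0) (L.par c, c) := by
      refine Or.inr ⟨hXd, ?_⟩
      exact ((hCnc c0 v0 hav0 hv0H hc0 hc0H' hc0v).trans' (hCna v0 hav0).symm').trans'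
        ((hCna v hav).trans' (hCnc c v hav hv hc hcH' hcv).symm')
    have hlk' : Lk G H' X' (L.par c, c) (L.par c0, c0) := hlk.symm' hc0p
    have hlhc := hL.lh c hc
    rcases hs.1 with h1 | h1
    · rcases hs.2.1 with h2 | h2
      · exfalso
        refine hL.nc H' hH'sub hq0H' hH'par ∅ X' (Set.empty_disjoint _) (y, u) (u, y)
          (L.par c0, c0) (L.par c, c) hFyu hFuy (hFt c0 hc0 hc0q hc0H' hc0p)
          (hFt c hc hcq hcH' hcp) hLk1 hlk ⟨?_, ?_, ?_⟩
        · change L.pos y u < L.pos (L.par c0) c0; omega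
        · change L.pos (L.par c0) c0 < L.pos u y; omega
        · change L.pos u y < L.pos (L.par c) c; omega
      · exact ⟨by omega, by omega⟩
    · exfalso
      refine hL.nc H' hH'sub hq0H' hH'par X' ∅ (Set.disjoint_empty _) (L.par c, c)
        (L.par c0, c0) (y, u) (u, y) (hFt c hc hcq hcH' hcp) (hFt c0 hc0 hc0q hc0H' hc0p)
        hFyu hFuy hlk' hLk1 ⟨?_, ?_, ?_⟩
      · change L.pos (L.par c) c < L.pos y u; omega
      · change L.pos y u < L.pos (L.par c0) c0; omega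
      · change L.pos (L.par c0) c0 < L.pos u y; omega
  have first : ∀ v, Re G rk a v → Re G rk q0 v → t y < L.lo v ∧ v ∈ SU G rk q0 L t (ρ y) ∧ v ≠ ρ y := by
    intro v hav hv
    have h1 := hin v hav (hH0all v hv)
    have h2 : L.hi v < L.hi (ρ y) := by
      rcases huS.2 with h | h
      · rw [← h]; omega
      · omega
    have h3 : v ≠ ρ y := fun h => by rw [h] at h2; exact lt_irrefl _ h2
    exact ⟨by omega, ⟨hv, Or.inr ⟨by omega, h2⟩⟩, h3⟩
  refine ⟨first, ?_⟩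
  intro haU
  obtain ⟨-, haS', haρ⟩ := first a ReflTransGen.refl haU
  have hNdρ : Nd G rk q0 ρ (ρ y) := Or.inr ⟨y, hyU, hy0, rfl⟩
  have hT : TransGen (Dw G rk q0 ρ) (ρ y) a := (hN.anc (ρ y) a hNdρ).1 ⟨haS', haρ⟩
  obtain ⟨y1, hy1, hy1a⟩ := TransGen.head'_iff.1 hT
  by_cases hya : y1 = a
  · rw [← hya]; exact hy1.2.2
  · exfalso
    obtain ⟨b2, hb2, hb2a⟩ : ∃ b, Dw G rk q0 ρ y1 b ∧ ReflTransGen (Dw G rk q0 ρ) b a := by
      rcases ReflTransGen.cases_head hy1a with h | ⟨b, h1, h2⟩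
      · exact absurd h hya
      · exact ⟨b, h1, h2⟩
    have hNd1 : Nd G rk q0 ρ y1 := Or.inr ⟨b2, hb2.1, hb2.2.1, hb2.2.2⟩
    have hTa : TransGen (Dw G rk q0 ρ) y1 a := TransGen.head'_iff.2 ⟨b2, hb2, hb2a⟩
    have haS1 := (hN.anc y1 a hNd1).2 hTa
    have hrk1 := AC1.t_rk hN hTa
    have hup := (hNod.nh y1 hNd1).up
    have hreach : ∀ v, Re G rk a v → v ∈ SU G rk q0 L t y1 ∧ v ≠ y1 := by
      intro v hv
      induction hv with
      | refl => exact haS1
      | @tail b c h1 h2 ih =>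
        refine ⟨hup b ih.1 ih.2 c h2, ?_⟩
        intro hc
        have h3 := Re.rank (h1.tail h2)
        rw [hc] at h3
        omega
    have hv1 := (hN.anc y1 v0 hNd1).1 (hreach v0 hav0)
    have hv2 := (hN.anc y v0 hNd).1 ⟨hv0S, hv0y⟩
    have hy1y : y1 = y := by
      rcases AC1.chain hv1.to_reflTransGen hv2.to_reflTransGen with h | h
      · rcases ReflTransGen.cases_tail h with h3 | ⟨d, h3, h4⟩
        · exact h3.symm
        · exfalso
          have h5 := AC1.rt_rk hN h3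
          have h6 := AC1.dw_rk hN hy1
          rw [h4.2.2] at h6
          omega
      · rcases ReflTransGen.cases_tail h with h3 | ⟨d, h3, h4⟩
        · exact h3
        · exfalso
          have h5 := AC1.rt_rk hN h3
          have h7 : d = ρ y := by rw [← h4.2.2, hy1.2.2]
          rw [h7] at h5
          omega
    rw [hy1y] at haS1
    exact haS haS1.1

end Pool.BD
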